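import Mathlib

namespace Pool.Agent.Results.MP_0e842d_nt.Superexp

open Finset Filter Topology

/-- some prime power p^k at most a1*a2 - a1 - a2 has the form a1 x + a2 y -/
def good (k a1 a2 : ℕ) : Prop :=
  ∃ p x y : ℕ, p.Prime ∧ (p : ℤ) ^ k ≤ (a1 : ℤ) * a2 - a1 - a2 ∧ p ^ k = a1 * x + a2 * y

lemma count (k q A : ℕ) (hA : 0 < A) (hq : (2 * A) ^ 2 = q ^ k)
    (h : ∀ a, A ≤ a → a < 2 * A → good k a (a + 1)) : A * A ≤ 2 * q * (q - 1) ^ k := by
  set B := (q - 1) ^ k with hB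
  have hsub : Ico A (2 * A) ⊆ ((range q ×ˢ Icc 1 (B / A)) ×ˢ range 2).image
      (fun z => z.1.1 ^ k / z.1.2 - z.2) := by
    intro a ha
    rw [mem_Ico] at ha
    obtain ⟨p, x, y, hp, h1, h2⟩ := h a ha.1 ha.2
    have h1' : p ^ k < (2 * A) ^ 2 := by
      have : (p : ℤ) ^ k < (2 * A) ^ 2 := by
        have e1 : (a : ℤ) + 1 ≤ 2 * A := by exact_mod_cast ha.2
        have e2 : (0 : ℤ) ≤ a := by positivity
        push_cast at h1
        nlinarith
      exact_mod_cast this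
    rw [hq] at h1'
    have hpq : p < q := lt_of_pow_lt_pow_left₀ k (Nat.zero_le _) h1'
    have hPB : p ^ k ≤ B := Nat.pow_le_pow_left (by omega) k
    have hP0 : 0 < p ^ k := pow_pos hp.pos k
    have ht : 0 < x + y := by
      by_contra h0
      have hx : x = 0 := by omega
      have hy : y = 0 := by omega
      rw [hx, hy] at h2; omega
    have l1 : a ≤ p ^ k / (x + y) := (Nat.le_div_iff_mul_le ht).2 (by nlinarith)
    have l2 : p ^ k / (x + y) < a + 2 := (Nat.div_lt_iff_lt_mul ht).2 (by nlinarith)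
    have l3 : x + y ≤ B / A := (Nat.le_div_iff_mul_le hA).2 (by nlinarith [ha.1])
    refine mem_image.2 ⟨((p, x + y), p ^ k / (x + y) - a), ?_, ?_⟩
    · simp only [mem_product, mem_range, mem_Icc]
      omega
    · simp only
      omega
  have hc := (card_le_card hsub).trans card_image_le
  simp only [Nat.card_Ico, card_product, card_range, Nat.card_Icc] at hc
  have e1 : 2 * A - A = A := by omega
  have e2 : B / A + 1 - 1 = B / A := Nat.add_sub_cancel _ _
  rw [e1, e2] at hc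
  have := Nat.div_mul_le_self B A
  calc A * A ≤ q * (B / A) * 2 * A := Nat.mul_le_mul_right _ hc
    _ = 2 * q * (B / A * A) := by ring
    _ ≤ 2 * q * B := Nat.mul_le_mul_left _ this

theorem result (M : ℝ) (hM : 0 < M) : ∃ k0 : ℕ, ∀ k : ℕ, k0 ≤ k → ∀ N : ℕ, 0 < N →
    (∀ a1 a2 : ℕ, N < a1 → a1 < a2 → Nat.Coprime a1 a2 → good k a1 a2) → M ^ k < N := by
  set s := ⌈M⌉₊ + 1 with hs
  set q := (2 * s) ^ 2 with hq
  have hq1 : 1 ≤ q := Nat.one_le_pow _ _ (by omega)
  have hqR : (0 : ℝ) < q := by exact_mod_cast hq1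
  have hlt : (((q - 1 : ℕ) : ℝ) / q) < 1 := by
    rw [div_lt_one hqR]; exact_mod_cast (by omega)
  have ht := tendsto_pow_atTop_nhds_zero_of_lt_one (by positivity) hlt
  have hev := ht.eventually (gt_mem_nhds (show (0 : ℝ) < 1 / (8 * q) by positivity))
  obtain ⟨k0, hk0⟩ := eventually_atTop.1 hev
  refine ⟨k0 + 1, fun k hk N _ hN => ?_⟩
  have h1 := hk0 k (by omega)
  rw [div_pow, div_lt_div_iff₀ (by positivity) (by positivity)] at h1
  have h2 : (q - 1) ^ k * (8 * q) < 1 * q ^ k := by exact_mod_cast h1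
  obtain ⟨j, rfl⟩ : ∃ j, k = j + 1 := ⟨k - 1, by omega⟩
  by_contra hcon
  push Not at hcon
  have hMs : M < s := by
    rw [hs]; push_cast; linarith [Nat.le_ceil M]
  have h3 : (N : ℝ) < (s : ℝ) ^ (j + 1) := hcon.trans_lt (pow_lt_pow_left₀ hMs hM.le (by omega))
  have h4 : N < s ^ (j + 1) := by exact_mod_cast h3
  have h5 : s ^ (j + 1) ≤ 2 ^ j * s ^ (j + 1) := Nat.le_mul_of_pos_left _ (by positivity)
  have h6 : (2 * (2 ^ j * s ^ (j + 1))) ^ 2 = q ^ (j + 1) := by
    rw [hq, ← pow_mul, mul_comm 2 (j + 1), pow_mul, mul_pow 2 s, pow_succ 2 j]; ring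
  have h7 := count (j + 1) q (2 ^ j * s ^ (j + 1)) (by omega) h6
    (fun a ha _ => hN a (a + 1) (by omega) (by omega) (by simp))
  nlinarith

end Pool.Agent.Results.MP_0e842d_nt.Superexp
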